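import Mathlib

namespace Pool.Agent.Results.MP_2c723a_al.Counter

open Module Module.End

variable {K V : Type} [Field K] [AddCommGroup V] [Module K V]

/-- The tridiagonal relation `[A, A²B - βABA + BA² - γ(AB + BA) - ϱB] = 0`. -/
def TDRel (β γ ρ : K) (A B : End K V) : Prop :=
  A * (A * A * B - β • (A * B * A) + B * A * A - γ • (A * B + B * A) - ρ • B) =
    (A * A * B - β • (A * B * A) + B * A * A - γ • (A * B + B * A) - ρ • B) * A

/-- `A` is diagonalizable: its eigenspaces span. -/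
def Diag (A : End K V) : Prop := ⨆ μ : K, A.eigenspace μ = ⊤

/-- `V ≠ 0` and no subspace other than `0`, `V` is invariant under both maps. -/
def Irred (A B : End K V) : Prop :=
  Nontrivial V ∧ ∀ W : Submodule K V, W.map A ≤ W → W.map B ≤ W → W = ⊥ ∨ W = ⊤

/-- The eigenspaces of `A` have an ordering `V_0, …, V_d` with `B V_i ⊆ V_{i-1}+V_i+V_{i+1}`. -/
def TriOrder (A B : End K V) : Prop :=
  ∃ (d : ℕ) (θ : Fin (d + 1) → K), Function.Injective θ ∧
    (∀ μ, A.HasEigenvalue μ ↔ μ ∈ Set.range θ) ∧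
    ∀ i, (A.eigenspace (θ i)).map B ≤
      ⨆ j ∈ {j : Fin (d + 1) | j.val ≤ i.val + 1 ∧ i.val ≤ j.val + 1}, A.eigenspace (θ j)

def IsTDPair (A B : End K V) : Prop :=
  Diag A ∧ Diag B ∧ TriOrder A B ∧ TriOrder B A ∧ Irred A B

section
variable (K : Type) [Field K]

def mA : Matrix (Fin 3) (Fin 3) K := !![-1, 0, 0; 0, 0, 0; 0, 0, 1]
def mB : Matrix (Fin 3) (Fin 3) K := !![1, 1, 1; 1, 1, 1; 1, 1, 1]
noncomputable def A : End K (Fin 3 → K) := Matrix.toLin' (mA K)
noncomputable def B : End K (Fin 3 → K) := Matrix.toLin' (mB K)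

lemma A_apply (v : Fin 3 → K) : A K v = ![-v 0, 0, v 2] := by
  ext i; fin_cases i <;> simp [A, mA, Matrix.mulVec, dotProduct, Fin.sum_univ_three]
lemma B_apply (v : Fin 3 → K) :
    B K v = ![v 0 + v 1 + v 2, v 0 + v 1 + v 2, v 0 + v 1 + v 2] := by
  ext i; fin_cases i <;> simp [B, mB, Matrix.mulVec, dotProduct, Fin.sum_univ_three]

lemma rel1 : TDRel (-1) 0 1 (A K) (B K) := by
  unfold TDRel
  ext v i
  fin_cases v <;> fin_cases i <;> simp [A_apply, B_apply]
  ring

lemma rel2 : TDRel (-1) 0 9 (B K) (A K) := by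
  unfold TDRel
  ext v i
  fin_cases v <;> fin_cases i <;> simp [A_apply, B_apply] <;> norm_num

lemma memA (μ : K) (v : Fin 3 → K) :
    v ∈ (A K).eigenspace μ ↔ (-v 0 = μ * v 0 ∧ 0 = μ * v 1 ∧ v 2 = μ * v 2) := by
  rw [mem_eigenspace_iff, A_apply]
  constructor
  · intro h
    exact ⟨congrFun h 0, congrFun h 1, congrFun h 2⟩
  · rintro ⟨h0, h1, h2⟩
    ext i; fin_cases i
    · exact h0
    · exact h1
    · exact h2

lemma memB (μ : K) (v : Fin 3 → K) :
    v ∈ (B K).eigenspace μ ↔ (v 0 + v 1 + v 2 = μ * v 0 ∧ v 0 + v 1 + v 2 = μ * v 1 ∧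
      v 0 + v 1 + v 2 = μ * v 2) := by
  rw [mem_eigenspace_iff, B_apply]
  constructor
  · intro h
    exact ⟨congrFun h 0, congrFun h 1, congrFun h 2⟩
  · rintro ⟨h0, h1, h2⟩
    ext i; fin_cases i
    · exact h0
    · exact h1
    · exact h2

lemma diagA : Diag (A K) := by
  unfold Diag
  rw [eq_top_iff]
  intro v _
  have e : v = ![v 0, 0, 0] + ![0, v 1, 0] + ![0, 0, v 2] := by
    ext i; fin_cases i <;> simp
  rw [e]
  refine Submodule.add_mem _ (Submodule.add_mem _ ?_ ?_) ?_
  · exact Submodule.mem_iSup_of_mem (-1) ((memA K _ _).2 (by simp))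
  · exact Submodule.mem_iSup_of_mem 0 ((memA K _ _).2 (by simp))
  · exact Submodule.mem_iSup_of_mem 1 ((memA K _ _).2 (by simp))

variable [CharZero K]

lemma diagB : Diag (B K) := by
  unfold Diag
  rw [eq_top_iff]
  intro v _
  set s := (v 0 + v 1 + v 2) / 3 with hs
  have e : v = ![s, s, s] + ![v 0 - s, v 1 - s, v 2 - s] := by
    ext i; fin_cases i <;> simp
  rw [e]
  refine Submodule.add_mem _ ?_ ?_
  · exact Submodule.mem_iSup_of_mem 3 ((memB K _ _).2 (by simp; ring))
  · refine Submodule.mem_iSup_of_mem 0 ((memB K _ _).2 ?_)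
    simp [hs]; ring

lemma irred : Irred (A K) (B K) := by
  refine ⟨inferInstance, fun W hA hB => ?_⟩
  have hA' : ∀ v ∈ W, A K v ∈ W := fun v hv => hA ⟨v, hv, rfl⟩
  have hB' : ∀ v ∈ W, B K v ∈ W := fun v hv => hB ⟨v, hv, rfl⟩
  have p0 : ∀ v ∈ W, ![v 0, 0, 0] ∈ W := by
    intro v hv
    have := W.smul_mem (1 / 2 : K) (W.sub_mem (hA' _ (hA' _ hv)) (hA' _ hv))
    convert this using 1
    ext i; fin_cases i <;> simp [A_apply]; ring
  have p2 : ∀ v ∈ W, ![0, 0, v 2] ∈ W := by
    intro v hv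
    have := W.smul_mem (1 / 2 : K) (W.add_mem (hA' _ (hA' _ hv)) (hA' _ hv))
    convert this using 1
    ext i; fin_cases i <;> simp [A_apply]; ring
  have p1 : ∀ v ∈ W, ![0, v 1, 0] ∈ W := by
    intro v hv
    have := W.sub_mem hv (hA' _ (hA' _ hv))
    convert this using 1
    ext i; fin_cases i <;> simp [A_apply]
  by_cases h : W = ⊥
  · exact Or.inl h
  right
  obtain ⟨v, hv, hv0⟩ := Submodule.exists_mem_ne_zero_of_ne_bot h
  have hone : ∃ c : K, c ≠ 0 ∧ ![c, c, c] ∈ W := by
    by_cases h0 : v 0 = 0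
    · by_cases h1 : v 1 = 0
      · have h2 : v 2 ≠ 0 := by
          intro h2; apply hv0; ext i; fin_cases i <;> simp [h0, h1, h2]
        exact ⟨v 2, h2, by simpa [B_apply] using hB' _ (p2 v hv)⟩
      · exact ⟨v 1, h1, by simpa [B_apply] using hB' _ (p1 v hv)⟩
    · exact ⟨v 0, h0, by simpa [B_apply] using hB' _ (p0 v hv)⟩
  obtain ⟨c, hc, hW⟩ := hone
  rw [eq_top_iff]
  intro w _
  have := W.add_mem (W.add_mem (W.smul_mem (w 0 / c) (p0 _ hW)) (W.smul_mem (w 1 / c) (p1 _ hW)))
    (W.smul_mem (w 2 / c) (p2 _ hW))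
  convert this using 1
  ext i; fin_cases i <;> simp [hc]

def ev : Fin 3 → K := ![-1, 0, 1]

lemma coordA (k : Fin 3) (μ : K) (h : μ ≠ ev K k) (v : Fin 3 → K)
    (hv : v ∈ (A K).eigenspace μ) : v k = 0 := by
  obtain ⟨h0, h1, h2⟩ := (memA K μ v).1 hv
  fin_cases k
  · have h' : μ + 1 ≠ 0 := fun e => h (by simp [ev]; linear_combination e)
    have : (μ + 1) * v 0 = 0 := by linear_combination -h0
    simpa [h'] using this
  · have h' : μ ≠ 0 := by simpa [ev] using h
    simpa [h'] using h1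
  · have h' : μ - 1 ≠ 0 := fun e => h (by simp [ev]; linear_combination e)
    have : (μ - 1) * v 2 = 0 := by linear_combination -h2
    simpa [h'] using this

lemma single_mem (k : Fin 3) : (Pi.single k 1 : Fin 3 → K) ∈ (A K).eigenspace (ev K k) := by
  rw [memA]; fin_cases k <;> simp [ev]

lemma notTri : ¬ TriOrder (A K) (B K) := by
  rintro ⟨d, θ, hinj, hev, hB⟩
  have hk : ∀ k : Fin 3, ∃ i, θ i = ev K k := by
    intro k
    refine (hev _).1 (hasEigenvalue_of_hasEigenvector (x := Pi.single k 1) ⟨single_mem K k, ?_⟩)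
    intro h; simpa using congrFun h k
  choose idx hidx using hk
  have hadj : ∀ k l : Fin 3, (idx l).val ≤ (idx k).val + 1 ∧ (idx k).val ≤ (idx l).val + 1 := by
    intro k l
    by_contra hc
    have h1 := hB (idx k) ⟨Pi.single k 1, by rw [hidx]; exact single_mem K k, rfl⟩
    have h2 : (⨆ j ∈ {j : Fin (d + 1) | j.val ≤ (idx k).val + 1 ∧ (idx k).val ≤ j.val + 1},
        (A K).eigenspace (θ j)) ≤ LinearMap.ker (LinearMap.proj (R := K) (φ := fun _ => K) l) := by
      refine iSup₂_le fun j hj v hv => ?_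
      refine coordA K l (θ j) ?_ v hv
      intro e
      have : j = idx l := hinj (e.trans (hidx l).symm)
      exact hc (this ▸ hj)
    have h3 := h2 h1
    rw [LinearMap.mem_ker, B_apply] at h3
    fin_cases k <;> fin_cases l <;> simp at h3
  have hne : ∀ k l : Fin 3, k ≠ l → (idx k).val ≠ (idx l).val := by
    intro k l hkl e
    have : ev K k = ev K l := by rw [← hidx, ← hidx, Fin.ext e]
    fin_cases k <;> fin_cases l <;> simp [ev] at this hkl
    all_goals norm_num at this
  have a1 := hadj 0 1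
  have a2 := hadj 0 2
  have a3 := hadj 1 2
  have b1 := hne 0 1 (by decide)
  have b2 := hne 0 2 (by decide)
  have b3 := hne 1 2 (by decide)
  omega

lemma dim3 : finrank K ((B K).eigenspace 3) = 1 := by
  have : (B K).eigenspace 3 = Submodule.span K {![1, 1, 1]} := by
    ext v
    rw [memB, Submodule.mem_span_singleton]
    constructor
    · rintro ⟨h0, h1, h2⟩
      refine ⟨v 0, ?_⟩
      ext i; fin_cases i
      · simp
      · simp; linear_combination (h1 - h0) / 3
      · simp; linear_combination (h2 - h0) / 3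
    · rintro ⟨c, rfl⟩
      simp; ring
  rw [this, finrank_span_singleton]
  intro h; simpa using congrFun h 0

lemma dim0 : finrank K ((B K).eigenspace 0) = 2 := by
  have h1 : (B K).eigenspace 0 = LinearMap.ker (B K) := by simp
  have h2 : LinearMap.range (B K) = (B K).eigenspace 3 := by
    ext v
    rw [memB]
    constructor
    · rintro ⟨w, rfl⟩
      simp [B_apply]; ring
    · rintro ⟨h0, h1, h2⟩
      refine ⟨![v 0, 0, 0], ?_⟩
      rw [B_apply]
      ext i; fin_cases i
      · simp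
      · simp; linear_combination (h1 - h0) / 3
      · simp; linear_combination (h2 - h0) / 3
  have := LinearMap.finrank_range_add_finrank_ker (B K)
  rw [h2, dim3, ← h1] at this
  simp at this
  omega

end

theorem result (K : Type) [Field K] [CharZero K] :
    ∃ (β γ γ' ρ ρ' : K) (n : ℕ) (A B : End K (Fin n → K)),
      TDRel β γ ρ A B ∧ TDRel β γ' ρ' B A ∧ Irred A B ∧ Diag A ∧ Diag B ∧ ¬ IsTDPair A B ∧
      ∃ μ ν : K, B.HasEigenvalue μ ∧ B.HasEigenvalue ν ∧
        finrank K (B.eigenspace μ) = 1 ∧ finrank K (B.eigenspace ν) = 2 := by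
  refine ⟨-1, 0, 0, 1, 9, 3, A K, B K, rel1 K, rel2 K, irred K, diagA K, diagB K,
    fun h => notTri K h.2.2.1, 3, 0, ?_, ?_, dim3 K, dim0 K⟩
  · intro h; have := dim3 K; rw [show (B K).eigenspace 3 = ⊥ from h] at this; simp at this
  · intro h; have := dim0 K; rw [show (B K).eigenspace 0 = ⊥ from h] at this; simp at this

end Pool.Agent.Results.MP_2c723a_al.Counter
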